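import Mathlib
import Pool.Agent.Q81.LaguerreIneq

/-!
# A diagonal hyperbolicity preserver of infinite order that is not monotone

The basis is `B_2 = x² - 1` and `B_k = x^k` for `k ≠ 2`; all `B_k` are eigenvectors of
`L = x² D² - x D`, with eigenvalue `k (k - 2)`. The operator `T` multiplies `B_0, B_1, B_2` by
`2, 7, 12` and kills the other `B_k`.
-/

namespace Pool.Agent.Results.MP_f79668_an.DiagonalNotMonotone

open Polynomial

/-- `T = ∑ Q_k(x) D^k` on `ℝ[x]` (for every polynomial the sum is finite). -/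
def Represents (T : ℝ[X] →ₗ[ℝ] ℝ[X]) (Q : ℕ → ℝ[X]) : Prop :=
  ∀ p : ℝ[X], T p = ∑ k ∈ Finset.range (p.natDegree + 1), Q k * derivative^[k] p

/-- All zeros of `p` are real; the zero polynomial counts as hyperbolic. -/
def Hyperbolic (p : ℝ[X]) : Prop := p = 0 ∨ ∀ z : ℂ, aeval z p = 0 → z.im = 0

/-- `T` maps hyperbolic polynomials to hyperbolic polynomials. -/
def HyperbolicityPreserver (T : ℝ[X] →ₗ[ℝ] ℝ[X]) : Prop :=
  ∀ p : ℝ[X], Hyperbolic p → Hyperbolic (T p)

/-- `deg Q_k ≤ deg Q_{k+1}` whenever `Q_k ≠ 0` (with `deg 0 = ⊥`). -/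
def IsMonotone (Q : ℕ → ℝ[X]) : Prop := ∀ k, Q k ≠ 0 → (Q k).degree ≤ (Q (k + 1)).degree

/-- `deg B_k = k` and every `B_k` solves `a_0(k) y + ∑_{j=1}^M a_j(x) y^(j) = 0`, with `M ≥ 1` and
real polynomials `a_1, …, a_M`, `a_M ≠ 0`, independent of `k`. -/
def Admissible (B : Module.Basis ℕ ℝ ℝ[X]) : Prop :=
  (∀ k, (B k).degree = k) ∧ ∃ M ≥ 1, ∃ a : ℕ → ℝ[X], a M ≠ 0 ∧ ∃ a₀ : ℕ → ℝ, ∀ k,
    C (a₀ k) * B k + ∑ j ∈ Finset.Icc 1 M, a j * derivative^[j] (B k) = 0

/-- The polynomials of the basis. -/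
noncomputable def b (k : ℕ) : ℝ[X] := if k = 2 then X ^ 2 - C 1 else X ^ k

lemma b_degree (k : ℕ) : (b k).degree = k := by
  unfold b
  split_ifs with h
  · subst h
    exact degree_X_pow_sub_C (by norm_num) 1
  · exact degree_X_pow k

/-- The sequence of polynomials `b`. -/
noncomputable def seq : Polynomial.Sequence ℝ := ⟨b, b_degree⟩

lemma seq_unit (i : ℕ) : IsUnit (seq i).leadingCoeff :=
  (leadingCoeff_ne_zero.2 (seq.ne_zero i)).isUnit

/-- The basis. -/
noncomputable def B : Module.Basis ℕ ℝ ℝ[X] := seq.basis seq_unit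

lemma B_apply (k : ℕ) : B k = b k := seq.basis_eq_self seq_unit k

/-- The operator `T[p] = (2 p_0 - 10 p_2) + 7 p_1 x + 12 p_2 x²`, where `p = ∑ p_j x^j`. -/
noncomputable def T : ℝ[X] →ₗ[ℝ] ℝ[X] :=
  (lcoeff ℝ 0).smulRight (C 2) + (lcoeff ℝ 1).smulRight (C 7 * X) +
    (lcoeff ℝ 2).smulRight (C 12 * X ^ 2 - C 10)

/-- The coefficients of `T`. -/
noncomputable def Q (k : ℕ) : ℝ[X] :=
  C ((k.factorial : ℝ)⁻¹ * (k.choose 0 : ℝ)) * (-X) ^ (k - 0) * C 2 +
    C ((k.factorial : ℝ)⁻¹ * (k.choose 1 : ℝ)) * (-X) ^ (k - 1) * (C 7 * X) +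
    C ((k.factorial : ℝ)⁻¹ * (k.choose 2 : ℝ)) * (-X) ^ (k - 2) * (C 12 * X ^ 2 - C 10)

lemma T_apply (p : ℝ[X]) : T p = C (p.coeff 0) * C 2 + C (p.coeff 1) * (C 7 * X) +
    C (p.coeff 2) * (C 12 * X ^ 2 - C 10) := by
  simp only [T, LinearMap.add_apply, LinearMap.smulRight_apply, lcoeff_apply, smul_eq_C_mul]

lemma represents : Represents T Q := by
  intro p
  rw [T_apply, Q81.LaguerreIneq.coeff_eq_sum p 0, Q81.LaguerreIneq.coeff_eq_sum p 1,
    Q81.LaguerreIneq.coeff_eq_sum p 2, Finset.sum_mul, Finset.sum_mul, Finset.sum_mul,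
    ← Finset.sum_add_distrib, ← Finset.sum_add_distrib]
  refine Finset.sum_congr rfl fun k _ => ?_
  rw [Q]
  ring

lemma admissible : Admissible B := by
  refine ⟨fun k => by rw [B_apply]; exact b_degree k, 2, by norm_num,
    fun j => if j = 1 then -X else X ^ 2, by simp, fun k => -((k : ℝ) * (k - 2)), fun k => ?_⟩
  rw [B_apply, show Finset.Icc 1 2 = {1, 2} from rfl, Finset.sum_pair (by norm_num)]
  simp only [if_true, OfNat.ofNat_ne_one, if_false]
  simp only [Function.iterate_succ, Function.iterate_zero, Function.comp_apply, id_eq]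
  unfold b
  split_ifs with h
  · subst h
    simp
    ring
  · rcases k with _ | _ | _ | k
    · simp
    · simp
      have e : (C 2 : ℝ[X]) = 2 := map_ofNat C 2
      rw [e]; ring
    · exact absurd rfl h
    · rw [derivative_X_pow, derivative_C_mul, derivative_X_pow]
      simp only [Nat.add_sub_cancel]
      simp only [show (k + 1 + 1 : ℕ) = k + 2 from rfl]
      have e : (-(((k + 2 + 1 : ℕ) : ℝ) * (((k + 2 + 1 : ℕ) : ℝ) - 2)) : ℝ)
          = -((k : ℝ) + 3) * (k + 1) := by push_cast; ring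
      rw [e]
      push_cast
      simp only [map_neg, map_mul, map_add, map_natCast, map_ofNat, C_1]
      ring

lemma preserver : HyperbolicityPreserver T := by
  intro p hp
  rcases hp with rfl | hp
  · left; simp
  have hsplit := Q81.LaguerreIneq.splits_of_hyperbolic hp
  have hineq := Q81.LaguerreIneq.coeff_ineq hsplit
  set u := p.coeff 0
  set v := p.coeff 1
  set w := p.coeff 2
  have hdisc : 0 ≤ (7 * v) ^ 2 - 4 * (12 * w) * (2 * u - 10 * w) := by
    by_cases huw : u * w ≤ 0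
    · nlinarith [sq_nonneg v, sq_nonneg w]
    · push Not at huw
      nlinarith [sq_nonneg w]
  by_cases h0 : T p = 0
  · exact Or.inl h0
  right
  intro z hz
  have h1 : ((12 * w : ℝ) : ℂ) * z ^ 2 + ((7 * v : ℝ) : ℂ) * z + ((2 * u - 10 * w : ℝ) : ℂ) = 0 := by
    rw [T_apply] at hz
    simp only [map_add, map_mul, map_sub, aeval_C, aeval_X, map_pow] at hz
    push_cast
    simp only [Complex.coe_algebraMap] at hz
    push_cast at hz
    linear_combination hz
  rcases Q81.LaguerreIneq.real_of_disc hdisc h1 with h2 | ⟨h2, h3, h4⟩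
  · exact h2
  · exfalso
    apply h0
    have hw : w = 0 := by linarith
    have hv : v = 0 := by linarith
    have hu : u = 0 := by linarith
    rw [T_apply]
    show C u * C 2 + C v * (C 7 * X) + C w * (C 12 * X ^ 2 - C 10) = 0
    rw [hu, hv, hw]
    simp

lemma diag (k : ℕ) : T (B k) = C (if k = 0 then 2 else if k = 1 then 7 else
    if k = 2 then 12 else 0) * B k := by
  rw [B_apply, T_apply]
  unfold b
  rcases k with _ | _ | _ | k
  · simp [coeff_one]
  · simp [coeff_X]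
  · have c0 : (X ^ 2 - C 1 : ℝ[X]).coeff 0 = -1 := by simp
    have c1 : (X ^ 2 - C 1 : ℝ[X]).coeff 1 = 0 := by simp [coeff_X_pow, coeff_one]
    have c2 : (X ^ 2 - C 1 : ℝ[X]).coeff 2 = 1 := by simp [coeff_one]
    rw [if_pos rfl, c0, c1, c2]
    simp only [map_neg, map_one, map_zero, map_ofNat]
    norm_num
    have e : (C 12 : ℝ[X]) = 12 := map_ofNat C 12
    rw [e]; ring
  · simp [coeff_X_pow]

lemma rank_range : 3 ≤ Module.rank ℝ (LinearMap.range T) := by
  let v : Fin 3 → LinearMap.range T := fun i => ⟨T (B i), ⟨_, rfl⟩⟩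
  have hv : LinearIndependent ℝ v := by
    have h1 : LinearIndependent ℝ fun i : Fin 3 => B (i : ℕ) :=
      B.linearIndependent.comp _ Fin.val_injective
    let w : Fin 3 → ℝˣ := ![Units.mk0 2 (by norm_num), Units.mk0 7 (by norm_num),
      Units.mk0 12 (by norm_num)]
    have h2 := h1.units_smul w
    have h3 : (fun i => ((v i : LinearMap.range T) : ℝ[X])) = w • fun i : Fin 3 => B (i : ℕ) := by
      funext i
      show T (B (i : ℕ)) = w i • B (i : ℕ)
      rw [diag, Units.smul_def, smul_eq_C_mul]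
      fin_cases i <;> simp [w]
    refine LinearIndependent.of_comp (LinearMap.range T).subtype ?_
    show LinearIndependent ℝ (fun i => ((v i : LinearMap.range T) : ℝ[X]))
    rw [h3]
    exact h2
  have := hv.cardinal_le_rank
  simpa using this

lemma Q_ne_zero {k : ℕ} (hk : 8 ≤ k) : Q k ≠ 0 := by
  intro h
  have h1 := congrArg (fun f => eval (-1) f) h
  simp only [Q, eval_add, eval_mul, eval_C, eval_pow, eval_neg, eval_X, neg_neg, one_pow,
    eval_sub, eval_zero, mul_one, Nat.choose_zero_right, Nat.choose_one_right,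
    Nat.cast_choose_two, Nat.cast_one] at h1
  have h2 : (0 : ℝ) < (k.factorial : ℝ)⁻¹ := by positivity
  have h3 : (8 : ℝ) ≤ k := by exact_mod_cast hk
  have h4 : (k.factorial : ℝ)⁻¹ * ((k : ℝ) ^ 2 - 8 * k + 2) = 0 := by
    rw [← h1]; ring
  rcases mul_eq_zero.1 h4 with h5 | h5
  · exact h2.ne' h5
  · nlinarith

lemma Q_one : Q 1 = C 5 * X := by
  simp only [Q, Nat.factorial_one, Nat.choose_zero_right, Nat.choose_one_right, Nat.cast_one,
    inv_one, mul_one, map_one, Nat.sub_zero, pow_one, Nat.sub_self, pow_zero, one_mul]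
  rw [show Nat.choose 1 2 = 0 from rfl]
  simp only [Nat.cast_zero, map_zero, zero_mul, add_zero, map_ofNat]
  ring

lemma Q_two : Q 2 = C (-5) := by
  simp only [Q, Nat.factorial_two, Nat.choose_zero_right, Nat.choose_one_right, Nat.choose_self,
    Nat.cast_one, Nat.cast_ofNat, mul_one, Nat.sub_zero, Nat.sub_self, pow_zero,
    show 2 - 1 = 1 from rfl, pow_one, inv_mul_cancel₀ (two_ne_zero (α := ℝ)), map_one, one_mul]
  have e1 : C (2⁻¹ : ℝ) * (-X) ^ 2 * C 2 = X ^ 2 := by
    rw [mul_comm, ← mul_assoc, ← C_mul, mul_inv_cancel₀ two_ne_zero, C_1, one_mul, neg_sq]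
  have e2 : C (2⁻¹ : ℝ) * (C 12 * X ^ 2 - C 10) = C 6 * X ^ 2 - C 5 := by
    rw [mul_sub, ← mul_assoc, ← C_mul, ← C_mul]; norm_num
  rw [e1, e2]
  simp only [map_neg, map_ofNat]
  ring

/-- There are an admissible basis `B` of `ℝ[x]` and a hyperbolicity preserver `T` of infinite order
which is diagonal with respect to `B` but not monotone. Moreover the range of `T` has dimension
at least three, and the degree drops from `1` to `0` between the nonzero coefficients `Q_1` and
`Q_2`. -/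
theorem result : ∃ (B : Module.Basis ℕ ℝ ℝ[X]) (T : ℝ[X] →ₗ[ℝ] ℝ[X]) (Q : ℕ → ℝ[X]) (γ : ℕ → ℝ),
    Admissible B ∧ Represents T Q ∧ {k | Q k ≠ 0}.Infinite ∧ HyperbolicityPreserver T ∧
    (∀ k, T (B k) = C (γ k) * B k) ∧ ¬ IsMonotone Q ∧
    3 ≤ Module.rank ℝ (LinearMap.range T) ∧ (Q 1).degree = 1 ∧ (Q 2).degree = 0 := by
  have hQ1 : (Q 1).degree = 1 := by
    rw [Q_one, degree_C_mul_X (by norm_num)]
  have hQ2 : (Q 2).degree = 0 := by
    rw [Q_two, degree_C (by norm_num)]
  refine ⟨B, T, Q, _, admissible, represents, ?_, preserver, diag, ?_, rank_range, hQ1, hQ2⟩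
  · refine Set.infinite_of_not_bddAbove fun ⟨M, hM⟩ => ?_
    have h1 : Q (M + 8) ≠ 0 := Q_ne_zero (by omega)
    have := hM h1
    omega
  · intro h
    have h1 := h 1 (by intro h0; rw [h0, degree_zero] at hQ1; exact absurd hQ1 (by decide))
    rw [hQ1, show 1 + 1 = 2 from rfl, hQ2] at h1
    exact absurd h1 (by decide)

end Pool.Agent.Results.MP_f79668_an.DiagonalNotMonotone
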